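import Pool.Agent.N294.AW.A

/-!
# The non-symmetric `L^p`-Mahler inequality away from the centre of the body

The inequality of Q1 is a statement on `K - z` for all bodies `K` and all positions `z`.  Here it is
proved, for every convex body and with thresholds for `p` which do not depend on the dimension, for
all positions except those near the centre: for all `z` with `Λ*_K(z) ≥ t n` (`Λ*_K` the Cramér
transform of the uniform distribution on `K`), and for all `z ∈ K` outside a set of volume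
`q^n vol(K)`, `q < 1`.  (For `z` outside the interior of `K` both sides are trivial.)

Outline: the functional Mahler inequality for the function `e^{⟨a,x⟩} 1_K` gives
`M_∞(K - z) ≥ e^{n + Λ*_K(z)}`; the harmonic mean of `M_∞(K - z)` over `z ∈ K` is at least `4^n`
(library, `W570.AV`); `M_p` is compared with `M_∞` (library, `TH581`), and with the infimum for the
simplex, whose exponential rate is `r(p)` (library, `TH649`); small dimensions are covered by the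
theorem for `p ≥ p₀(n)` (library, `TH649.LOC`).
-/

set_option autoImplicit false

noncomputable section

open MeasureTheory
open scoped ENNReal

namespace Pool.Agent.Results.MP_5f4cdd_gt.AwayFromTheCentre

/-- convex bodies in `ℝⁿ` (in any position) -/
def Body {n : ℕ} (K : Set (Fin n → ℝ)) : Prop := Convex ℝ K ∧ IsCompact K ∧ (interior K).Nonempty

/-- The `L^p`-Mahler volume `M_p(K) = vol(K) ∫ exp(-h_{p,K}(y)) dy` for `0 < p < ∞`, where
`exp(-h_{p,K}(y)) = ((1/vol K) ∫_K exp(p⟨x,y⟩) dx)^(-1/p)`. -/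
def mahlerVolume {n : ℕ} (p : ℝ) (K : Set (Fin n → ℝ)) : ℝ≥0∞ :=
  volume K * ∫⁻ y : Fin n → ℝ, ENNReal.ofReal
    (((∫ x in K, Real.exp (p * ∑ i, x i * y i)) / (volume K).toReal) ^ (-(1 / p)))

/-- the standard simplex `Δ_n` -/
def simplex (n : ℕ) : Set (Fin n → ℝ) := {z | (∀ i, 0 ≤ z i) ∧ ∑ i, z i ≤ 1}

/-- the translate `K - z` -/
def shift {n : ℕ} (K : Set (Fin n → ℝ)) (z : Fin n → ℝ) : Set (Fin n → ℝ) :=
  (fun x => x - z) '' K

/-- the infimum of `M_p(Δ_n - x)` over `x ∈ Δ_n` -/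
def simplexInf (n : ℕ) (p : ℝ) : ℝ≥0∞ := ⨅ x ∈ simplex n, mahlerVolume p (shift (simplex n) x)

/-- `χ_K(z) = inf_y (1/vol K) ∫_K exp ⟨x - z, y⟩ dx`, that is `exp(-Λ*_K(z))` with the Cramér
transform `Λ*_K(z) = sup_y (⟨z,y⟩ - log E exp ⟨X,y⟩)` of the uniform distribution on `K` -/
def chi {n : ℕ} (K : Set (Fin n → ℝ)) (z : Fin n → ℝ) : ℝ :=
  ⨅ y : Fin n → ℝ, (∫ x in K, Real.exp (∑ i, (x i - z i) * y i)) / (volume K).toReal

/-- the rate `r(p) = e^(1+1/p) p^(1/p) Γ(1+1/p)`, the limit of the `n`-th roots of the infima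
`inf_x M_p(Δ_n - x)` -/
def rate (p : ℝ) : ℝ := Real.exp (1 + 1 / p) * p ^ (1 / p) * Real.Gamma (1 + 1 / p)

/-- `b_p(m) = (1+1/p)^((1+1/p)/2) (p/2π)^(1/(2p)) m^(1+1/(2p))` -/
def bound (p m : ℝ) : ℝ :=
  (1 + 1 / p) ^ ((1 + 1 / p) / 2) * (p / (2 * Real.pi)) ^ (1 / (2 * p)) * m ^ (1 + 1 / (2 * p))

lemma cb {n : ℕ} {K : Set (Fin n → ℝ)} (hK : Body K) : Pool.Agent.H404R2.TH.CB K :=
  ⟨hK.2.1, hK.1, hK.2.2⟩

lemma chi_eq {n : ℕ} (K : Set (Fin n → ℝ)) (z : Fin n → ℝ) :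
    chi K z = Pool.Agent.N294.NF.chi K z := by
  unfold chi Pool.Agent.N294.NF.chi Pool.Agent.N294.NF.mg
  congr 1
  funext y
  have e : ∀ x : Fin n → ℝ, Real.exp (∑ i, (x i - z i) * y i) =
      Real.exp (dotProduct x y) * Real.exp (-(dotProduct z y)) := by
    intro x
    rw [← Real.exp_add]
    congr 1
    simp only [dotProduct, sub_mul, Finset.sum_sub_distrib]
    ring
  simp_rw [e]
  rw [integral_mul_const]
  ring

/-- **The `L^p`-Mahler inequality away from the centre of the body.** -/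
theorem result :
    -- (1) every `t > 0`: all `p ≥ p₀(t)`, all dimensions, all bodies, all `z` with `Λ*_K(z) ≥ t n`
    (∀ t : ℝ, 0 < t → ∃ p₀ : ℝ, 0 < p₀ ∧ ∀ p : ℝ, p₀ ≤ p → ∀ n : ℕ, 1 ≤ n →
      ∀ K : Set (Fin n → ℝ), Body K → ∀ z : Fin n → ℝ, chi K z ≤ Real.exp (-(t * n)) →
        simplexInf n p ≤ mahlerVolume p (shift K z)) ∧
    -- (2) every `p > 0`, high dimensions, all `z` with `Λ*_K(z) ≥ t n`; `t = 1/2` if `p ≥ 1`
    (∀ p t : ℝ, 0 < p → rate p < bound p (Real.exp (1 + t)) →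
      ∃ n₀ : ℕ, ∀ n : ℕ, n₀ ≤ n → ∀ K : Set (Fin n → ℝ), Body K → ∀ z : Fin n → ℝ,
        chi K z ≤ Real.exp (-(t * n)) → simplexInf n p < mahlerVolume p (shift K z)) ∧
    (∀ p : ℝ, 1 ≤ p → rate p < bound p (Real.exp (1 + 1 / 2))) ∧
    -- (3) every `p ≥ 2`, high dimensions: all `z ∈ K` outside an exponentially small set
    (∀ p : ℝ, 2 ≤ p → ∃ q : ℝ, 0 < q ∧ q < 1 ∧ ∃ n₀ : ℕ, ∀ n : ℕ, n₀ ≤ n →
      ∀ K : Set (Fin n → ℝ), Body K →
        volume {z ∈ K | mahlerVolume p (shift K z) ≤ simplexInf n p} ≤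
          ENNReal.ofReal (q ^ n) * volume K) ∧
    -- (4) every `q > e/4`: all `p ≥ p₀(q)`, all dimensions, outside a set of volume `q^n vol(K)`
    (∀ q : ℝ, Real.exp 1 / 4 < q → ∃ p₀ : ℝ, 0 < p₀ ∧ ∀ p : ℝ, p₀ ≤ p → ∀ n : ℕ, 1 ≤ n →
      ∀ K : Set (Fin n → ℝ), Body K →
        volume {z ∈ K | mahlerVolume p (shift K z) < simplexInf n p} ≤
          ENNReal.ofReal (q ^ n) * volume K) := by
  refine ⟨fun t ht => ?_, fun p t hp h => ?_, fun p hp => ?_, fun p hp => ?_, fun q hq => ?_⟩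
  · obtain ⟨p₀, h0, h⟩ := Pool.Agent.N294.AW.region_all ht
    refine ⟨p₀, h0, fun p hp n hn K hK z hz => ?_⟩
    rw [chi_eq] at hz
    exact h p hp n hn K (cb hK) z hz
  · obtain ⟨n₀, h0⟩ := Pool.Agent.N294.AW.region hp h
    refine ⟨n₀, fun n hn K hK z hz => ?_⟩
    rw [chi_eq] at hz
    exact h0 n hn K (cb hK) z hz
  · rw [show (1 + 1 / 2 : ℝ) = 3 / 2 by norm_num]
    exact Pool.Agent.N294.AW.num1 hp
  · obtain ⟨q, q0, q1, n₀, h⟩ := Pool.Agent.N294.AW.almost (p := p) (by linarith)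
      (Pool.Agent.N294.AW.num2 hp)
    exact ⟨q, q0, q1, n₀, fun n hn K hK => h n hn K (cb hK)⟩
  · obtain ⟨p₀, h0, h⟩ := Pool.Agent.N294.AW.almost_all hq
    exact ⟨p₀, h0, fun p hp n hn K hK => h p hp n hn K (cb hK)⟩

end Pool.Agent.Results.MP_5f4cdd_gt.AwayFromTheCentre

end
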