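import Pool.Agent.N294.NF.Fin

/-!
# The functional Mahler inequality for all log-concave functions, in every position

For every log-concave function `f ≥ 0` on `ℝⁿ` with `0 < ∫ f < ∞` (no symmetry, no condition on the
position of the origin) and all `a, b ∈ ℝⁿ` the polar function `f°(y) = inf_x exp(-⟨x,y⟩)/f(x)`
satisfies

`∫ f(x) e^{⟨a,x⟩} dx · ∫ f°(y) e^{⟨b,y⟩} dy ≥ e^{n + ⟨a,b⟩}`,

with equality for `f = exp(-∑ x_i)` on the orthant, every `a` with `a_i < 1`, and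
`b_i = 1/(1 - a_i)`.

Consequences for convex bodies, with `χ_K(x) = inf_y E e^{⟨X - x, y⟩}` (`X` uniform in `K`), that is
`χ_K = exp(-Λ*_K)` with the Cramér transform `Λ*_K`: for all `p ∈ (0,∞)`, all bodies `K` and all `b`

`M_p(K) · E[χ_K(X)^{1/p} e^{⟨b,X⟩}] ≥ eⁿ`, and `M_∞(K - z) ≥ eⁿ / χ_K(z)` in every position `z`.

Outline: the sharp inequality for bodies (library, `TH537.EQ.s_mahler`) is applied to the bodies
`{(x,y) ∈ ℝⁿ × ℝᵐ : x ∈ A_m, y ∈ g_m(x) L}`, `g_m = 1 + log f(m x)/m`, `L` the centred simplex, and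
`m → ∞`; the statement on `M_p` is the inequality for the log-concave function `exp(-h_{p,K})`.
-/

set_option autoImplicit false

noncomputable section

open MeasureTheory Set
open scoped ENNReal

namespace Pool.Agent.Results.MP_5f4cdd_gt.FunctionalMahler

/-- log-concave functions `f ≥ 0` on `ℝⁿ` -/
structure LogConcave {n : ℕ} (f : (Fin n → ℝ) → ℝ) : Prop where
  nonneg : ∀ x, 0 ≤ f x
  conc : ∀ x y (a b : ℝ), 0 ≤ a → 0 ≤ b → a + b = 1 → f x ^ a * f y ^ b ≤ f (a • x + b • y)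

/-- the polar function `f°(y) = inf_x exp(-⟨x,y⟩) / f(x)`; for `f = exp(-φ)` it is `exp(-φ*)` with
the Legendre transform `φ*` -/
def polarFunction {n : ℕ} (f : (Fin n → ℝ) → ℝ) (y : Fin n → ℝ) : ℝ≥0∞ :=
  ⨅ x : Fin n → ℝ, ENNReal.ofReal (Real.exp (-∑ i, x i * y i)) / ENNReal.ofReal (f x)

/-- the Laplace transform `∫ F(x) exp ⟨a,x⟩ dx` -/
def laplace {n : ℕ} (F : (Fin n → ℝ) → ℝ≥0∞) (a : Fin n → ℝ) : ℝ≥0∞ :=
  ∫⁻ x, F x * ENNReal.ofReal (Real.exp (∑ i, a i * x i))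

/-- convex bodies in `ℝⁿ` (in any position) -/
def Body {n : ℕ} (K : Set (Fin n → ℝ)) : Prop := Convex ℝ K ∧ IsCompact K ∧ (interior K).Nonempty

/-- The `L^p`-Mahler volume `M_p(K) = vol(K) ∫ exp(-h_{p,K}(y)) dy` for `0 < p < ∞`, where
`exp(-h_{p,K}(y)) = ((1/vol K) ∫_K exp(p⟨x,y⟩) dx)^(-1/p)`. -/
def mahlerVolume {n : ℕ} (p : ℝ) (K : Set (Fin n → ℝ)) : ℝ≥0∞ :=
  volume K * ∫⁻ y : Fin n → ℝ, ENNReal.ofReal
    (((∫ x in K, Real.exp (p * ∑ i, x i * y i)) / (volume K).toReal) ^ (-(1 / p)))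

/-- The classical Mahler volume `M_∞(K) = vol(K) ∫ exp(-h_K(y)) dy` (the case `p = ∞`), where
`h_K(y) = sup_{x ∈ K} ⟨x, y⟩`. -/
def mahlerInf {n : ℕ} (K : Set (Fin n → ℝ)) : ℝ≥0∞ :=
  volume K * ∫⁻ y : Fin n → ℝ, ENNReal.ofReal
    (Real.exp (-(sSup ((fun x : Fin n → ℝ => ∑ i, x i * y i) '' K))))

/-- the translate `K - z` -/
def shift {n : ℕ} (K : Set (Fin n → ℝ)) (z : Fin n → ℝ) : Set (Fin n → ℝ) :=
  (fun x => x - z) '' K

/-- `χ_K(z) = inf_y (1/vol K) ∫_K exp ⟨x - z, y⟩ dx`, that is `exp(-Λ*_K(z))` with the Cramér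
transform `Λ*_K(z) = sup_y (⟨z,y⟩ - log E exp ⟨X,y⟩)` of the uniform distribution on `K` -/
def chi {n : ℕ} (K : Set (Fin n → ℝ)) (z : Fin n → ℝ) : ℝ :=
  ⨅ y : Fin n → ℝ, (∫ x in K, Real.exp (∑ i, (x i - z i) * y i)) / (volume K).toReal

/-- the mean value over `K` -/
def mean {n : ℕ} (K : Set (Fin n → ℝ)) (F : (Fin n → ℝ) → ℝ) : ℝ≥0∞ :=
  (volume K)⁻¹ * ∫⁻ x in K, ENNReal.ofReal (F x)

open Pool.Agent.N294.NF

lemma chi_eq {n : ℕ} (K : Set (Fin n → ℝ)) (z : Fin n → ℝ) :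
    chi K z = Pool.Agent.N294.NF.chi K z := by
  unfold chi Pool.Agent.N294.NF.chi mg
  congr 1
  funext y
  have e : ∀ x : Fin n → ℝ, Real.exp (∑ i, (x i - z i) * y i) =
      Real.exp (x ⬝ᵥ y) * Real.exp (-(z ⬝ᵥ y)) := by
    intro x
    rw [← Real.exp_add]
    congr 1
    simp only [dotProduct, sub_mul, Finset.sum_sub_distrib]
    ring
  simp_rw [e]
  rw [integral_mul_const]
  ring

lemma mahler_eq {n : ℕ} (p : ℝ) (K : Set (Fin n → ℝ)) :
    mahlerVolume p K = volume K * ∫⁻ y, ENNReal.ofReal (ep p K y) := by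
  unfold mahlerVolume ep mg
  congr 1
  refine lintegral_congr fun y => ?_
  congr 3
  refine integral_congr_ae (Filter.Eventually.of_forall fun x => ?_)
  simp only [dotProduct, Pi.smul_apply, smul_eq_mul]
  congr 1
  rw [Finset.mul_sum]
  exact Finset.sum_congr rfl fun i _ => by ring

/-- auxiliary bound -/
def hK_sub {n : ℕ} (K : Set (Fin n → ℝ)) (z y : Fin n → ℝ) : ℝ := hK K y - z ⬝ᵥ y

lemma inf_eq {n : ℕ} {K : Set (Fin n → ℝ)} (hB : Body K) (z : Fin n → ℝ) :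
    mahlerInf (shift K z) =
      volume K * ∫⁻ y, ENNReal.ofReal (Real.exp (-(hK K y - z ⬝ᵥ y))) := by
  have hne : K.Nonempty := hB.2.2.mono interior_subset
  have hvol : volume (shift K z) = volume K := by
    have : shift K z = (fun x => x + z) ⁻¹' K := by
      ext x
      simp only [shift, mem_image, mem_preimage]
      constructor
      · rintro ⟨y, hy, rfl⟩; simpa using hy
      · intro h; exact ⟨x + z, h, by simp⟩
    rw [this, measure_preimage_add_right]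
  unfold mahlerInf
  rw [hvol]
  congr 1
  refine lintegral_congr fun y => ?_
  congr 3
  obtain ⟨x0, hx0, e0⟩ := hK_att hB.2.1 hne y
  apply le_antisymm
  · refine csSup_le ((hne.image _).image _) ?_
    rintro _ ⟨_, ⟨x, hx, rfl⟩, rfl⟩
    have h1 := le_hK hB.2.1 hx y
    have h2 : ∑ i, (x - z) i * y i = x ⬝ᵥ y - z ⬝ᵥ y := by
      rw [← sub_dotProduct]; rfl
    simp only [h2]
    linarith
  · refine le_csSup_of_le ?_ ⟨x0 - z, ⟨x0, hx0, rfl⟩, rfl⟩ ?_
    · refine ⟨hK_sub K z y, ?_⟩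
      rintro _ ⟨_, ⟨x, hx, rfl⟩, rfl⟩
      have h1 := le_hK hB.2.1 hx y
      have h2 : ∑ i, (x - z) i * y i = x ⬝ᵥ y - z ⬝ᵥ y := by
        rw [← sub_dotProduct]; rfl
      simp only [h2, hK_sub]
      linarith
    · have h2 : ∑ i, (x0 - z) i * y i = x0 ⬝ᵥ y - z ⬝ᵥ y := by
        rw [← sub_dotProduct]; rfl
      simp only [h2, e0]
      exact le_rfl

/-- **The functional Mahler inequality for all log-concave functions**, in every position, and its
consequences for all `L^p`-Mahler volumes of all convex bodies. -/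
theorem result (n : ℕ) :
    -- the functional inequality, every log-concave function, every position and tilt
    (∀ f : (Fin n → ℝ) → ℝ, LogConcave f → 0 < ∫⁻ x, ENNReal.ofReal (f x) →
      ∫⁻ x, ENNReal.ofReal (f x) < ⊤ → ∀ a b : Fin n → ℝ,
        ENNReal.ofReal (Real.exp (n + ∑ i, a i * b i)) ≤
          laplace (fun x => ENNReal.ofReal (f x)) a * laplace (polarFunction f) b) ∧
    -- equality: `f = exp (-∑ x_i)` on the orthant, every `a` with `a_i < 1`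
    (∃ f : (Fin n → ℝ) → ℝ, LogConcave f ∧ ∫⁻ x, ENNReal.ofReal (f x) = 1 ∧
      ∀ a : Fin n → ℝ, (∀ i, a i < 1) → ∃ b : Fin n → ℝ,
        laplace (fun x => ENNReal.ofReal (f x)) a * laplace (polarFunction f) b =
          ENNReal.ofReal (Real.exp (n + ∑ i, a i * b i))) ∧
    -- all `L^p`-Mahler volumes, `0 < p < ∞`, of all convex bodies
    (∀ K : Set (Fin n → ℝ), Body K → ∀ p : ℝ, 0 < p → ∀ b : Fin n → ℝ,
      ENNReal.ofReal (Real.exp n) ≤
        mahlerVolume p K * mean K (fun x => chi K x ^ (1 / p) * Real.exp (∑ i, b i * x i))) ∧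
    -- the Mahler volume (`p = ∞`) in every position
    (∀ K : Set (Fin n → ℝ), Body K → ∀ z : Fin n → ℝ,
      ENNReal.ofReal (Real.exp n) / ENNReal.ofReal (chi K z) ≤ mahlerInf (shift K z)) := by
  refine ⟨?_, ?_, ?_, ?_⟩
  · intro f hf h0 h1 a b
    exact b1 n f ⟨hf.nonneg, hf.conc⟩ h0 h1 a b |>.trans (le_of_eq (by
      unfold laplace
      congr 1
      refine lintegral_congr fun x => ?_
      rw [ENNReal.ofReal_mul (hf.nonneg x)]
      rfl))
  · obtain ⟨s1, s2, s3⟩ := SH n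
    refine ⟨ex n, ⟨s1.nonneg, s1.conc⟩, s2, fun a ha => ⟨fun i => (1 - a i)⁻¹, ?_⟩⟩
    refine Eq.trans ?_ (s3 a _ ha fun i => rfl)
    unfold laplace
    congr 1
    refine lintegral_congr fun x => ?_
    rw [ENNReal.ofReal_mul (s1.nonneg x)]
    rfl
  · intro K hK p hp b
    have h := lp_bound b1 EP CHI hK.2.1 hK.1 hK.2.2 hp b
    rw [← mahler_eq] at h
    unfold mean
    simp_rw [chi_eq]
    exact h
  · intro K hK z
    have h := inf_chi b1 hK.2.1 hK.1 hK.2.2 z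
    rw [inf_eq hK, chi_eq]
    exact h

end Pool.Agent.Results.MP_5f4cdd_gt.FunctionalMahler
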