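import Pool.Agent.N563.SE.Fin
import Pool.Agent.N563.UL.U13

/-!
# The non-symmetric `L^p`-Mahler inequality: the set of good exponents, and small exponents

Let `S_p = inf_x M_p(Δ_n - x)`, let `dev K ∈ [0,1)` be `1 - |K|/|T|` for the smallest simplex `T`
containing `K`, and call `p ∈ (0,∞)` good (in dimension `n ≥ 2`) if Q1 holds for `p`, with equality
only for simplices with centroid at the origin.  All `p ≥ p₀(n)` are good (starting result
`LargeP`).  Here:

* near simplices Q1 holds, with its case of equality, for all `p ∈ (0,∞)` at once;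
* the set of good exponents is open, and good exponents have linear stability
  `M_p(K) ≥ (1 + c dev K) S_p` for all `K`, locally uniformly in `p`;
* there is a critical exponent `s ≥ 0` with all `p > s` good, and, if `s > 0`, then Q1 holds at `s`
  but it has a second minimiser, at a definite distance from simplices;
* stability for all small `p`, with one constant, is equivalent to strong slicing with its case of
  equality.

## Small exponents

For every convex body `K` of `ℝⁿ` in every position and every `p > 0`, with `q = p (n + 2)`,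

  `M_p(K) ≥ (2π/p)^(n/2) / (√(1+q) L_K)^n`,

and if `p n² ≤ n + 2` then at the centroid `M_p(K) ≤ (2π/p)^(n/2) (e^(5√q/8) / L_K)^n`.  Hence
`(p/2π)^(n/2) inf_z M_p(K - z) → L_K^(-n)` as `p → 0`; Q1 holds, strictly, for all `K` with
`√(1+q) e^(5√q/8) L_K < L_Δ`; and the strong slicing inequality `L_K ≤ L_Δ` in dimension `n` is
equivalent to Q1 up to the factor `1 - o(1)` as `p → 0`.

Outline.  Lower bound: by the arithmetic-geometric mean inequality for `y` and `-y` the position
disappears and one needs an upper bound for `E e^(p⟨x-x',y⟩)`, with `x`, `x'` independent; the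
marginal of the body `K × K` is compared with the two-sided exponential law.  Upper bound: for
centred `K` a comparison with the one-sided exponential law gives `E e^⟨x,y⟩ ≥ e^σ/(1+σ)`,
`σ² = Var⟨x,y⟩`.  Local theorem: in the position in which the smallest circumscribed simplex is the
centred simplex, a first order inequality `∫_(Δ∖K) w_p ≥ (p + 1 + η p) |Δ∖K|` is proved uniformly
in `p ∈ (0,P]`; for `p → 0` by the expansion `w_p = α_p + p² β_p |x|² + O(p^(3/2))`.  The rest is
compactness modulo affine maps and the comparison `(q/p)^n inf_z M_q(K-z) ≤ M_p(K) ≤ M_q(K)`,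
`q ≤ p`.
-/

set_option autoImplicit false

noncomputable section

open MeasureTheory Set Filter Topology
open scoped ENNReal

namespace Pool.Agent.Results.MP_5f4cdd_gt.SmallExponents

/-- convex bodies in `ℝⁿ` (in any position) -/
def Body {n : ℕ} (K : Set (Fin n → ℝ)) : Prop := Convex ℝ K ∧ IsCompact K ∧ (interior K).Nonempty

/-- The `L^p`-Mahler volume `M_p(K) = vol(K) ∫ exp(-h_{p,K}(y)) dy` for `0 < p < ∞`, where
`exp(-h_{p,K}(y)) = ((1/vol K) ∫_K exp(p⟨x,y⟩) dx)^(-1/p)`. -/
def mahlerVolume {n : ℕ} (p : ℝ) (K : Set (Fin n → ℝ)) : ℝ≥0∞ :=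
  volume K * ∫⁻ y : Fin n → ℝ, ENNReal.ofReal
    (((∫ x in K, Real.exp (p * ∑ i, x i * y i)) / (volume K).toReal) ^ (-(1 / p)))

/-- the translate `K - z` -/
def translate {n : ℕ} (K : Set (Fin n → ℝ)) (z : Fin n → ℝ) : Set (Fin n → ℝ) :=
  (fun x : Fin n → ℝ => x - z) '' K

/-- the standard simplex `Δ_n` -/
def simplex (n : ℕ) : Set (Fin n → ℝ) := {z | (∀ i, 0 ≤ z i) ∧ ∑ i, z i ≤ 1}

/-- the infimum of `M_p(Δ_n - x)` over `x ∈ Δ_n` -/
def simplexInf (n : ℕ) (p : ℝ) : ℝ≥0∞ :=
  ⨅ x ∈ simplex n, mahlerVolume p (translate (simplex n) x)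

/-- the centroid -/
def centroid {n : ℕ} (K : Set (Fin n → ℝ)) : Fin n → ℝ :=
  fun i => (∫ x in K, x i) / (volume K).toReal

/-- the covariance matrix of the uniform distribution on `K` -/
def covariance {n : ℕ} (K : Set (Fin n → ℝ)) : Matrix (Fin n) (Fin n) ℝ :=
  Matrix.of fun i j =>
    (∫ x in K, (x i - centroid K i) * (x j - centroid K j)) / (volume K).toReal

/-- the isotropic constant `L_K = (det Cov(K))^(1/(2n)) / vol(K)^(1/n)` -/
def isotropicConstant {n : ℕ} (K : Set (Fin n → ℝ)) : ℝ :=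
  (Real.sqrt (covariance K).det / (volume K).toReal) ^ (1 / (n : ℝ))

/-- `√(1+q) e^(5√q/8)`, `q = p (n+2)`; it tends to `1` as `p → 0` -/
def loss (n : ℕ) (p : ℝ) : ℝ :=
  Real.sqrt (1 + p * (n + 2)) * Real.exp (5 / 8 * Real.sqrt (p * (n + 2)))

/-- `K` is a simplex with centroid at the origin -/
def CentredSimplex {n : ℕ} (K : Set (Fin n → ℝ)) : Prop :=
  ∃ v : Fin (n + 1) → (Fin n → ℝ), AffineIndependent ℝ v ∧ ∑ i, v i = 0 ∧
    K = convexHull ℝ (Set.range v)

/-- the smallest volume of a simplex (hull of at most `n + 1` points) containing `K` -/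
def simplexHullVolume {n : ℕ} (K : Set (Fin n → ℝ)) : ℝ :=
  sInf {v | ∃ Q : Finset (Fin n → ℝ), Q.card ≤ n + 1 ∧ K ⊆ convexHull ℝ (Q : Set (Fin n → ℝ)) ∧
    v = (volume (convexHull ℝ (Q : Set (Fin n → ℝ)))).toReal}

/-- the deviation of `K` from simplices -/
def deviation {n : ℕ} (K : Set (Fin n → ℝ)) : ℝ := 1 - (volume K).toReal / simplexHullVolume K

/-- the inequality of Q1 for the dimension `n`, the exponent `p` and all bodies -/
def Holds (n : ℕ) (p : ℝ) : Prop :=
  ∀ K : Set (Fin n → ℝ), Body K → simplexInf n p ≤ mahlerVolume p K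

/-- good exponents: Q1 holds, with equality exactly for the simplices with centroid at the
origin -/
def Good (n : ℕ) (p : ℝ) : Prop :=
  ∀ K : Set (Fin n → ℝ), Body K → simplexInf n p ≤ mahlerVolume p K ∧
    (mahlerVolume p K = simplexInf n p ↔ CentredSimplex K)

/-- linear stability -/
def Stable (n : ℕ) (c p : ℝ) : Prop :=
  ∀ K : Set (Fin n → ℝ), Body K →
    ENNReal.ofReal (1 + c * deviation K) * simplexInf n p ≤ mahlerVolume p K

lemma body_iff {n : ℕ} {K : Set (Fin n → ℝ)} (h : Body K) : Pool.Agent.N563.SE.Body K :=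
  ⟨h.2.1, h.1, h.2.2⟩

lemma iff_body {n : ℕ} {K : Set (Fin n → ℝ)} (h : Pool.Agent.N563.SE.Body K) : Body K :=
  ⟨h.conv, h.cpt, h.int⟩

lemma body_simplex (n : ℕ) : Body (simplex n) := by
  refine ⟨?_, ?_, ?_⟩
  · intro x hx y hy a b ha hb hab
    refine ⟨fun i => ?_, ?_⟩
    · have h1 := hx.1 i
      have h2 := hy.1 i
      simp only [Pi.add_apply, Pi.smul_apply, smul_eq_mul]
      positivity
    · have h1 := hx.2
      have h2 := hy.2
      simp only [Pi.add_apply, Pi.smul_apply, smul_eq_mul, Finset.sum_add_distrib,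
        ← Finset.mul_sum]
      nlinarith
  · have hcl : IsClosed (simplex n) := by
      have h : simplex n = (⋂ i, {z : Fin n → ℝ | 0 ≤ z i}) ∩ {z | ∑ i, z i ≤ 1} := by
        ext z
        simp [simplex]
      rw [h]
      exact (isClosed_iInter fun i => isClosed_le continuous_const (by fun_prop)).inter
        (isClosed_le (by fun_prop) continuous_const)
    refine IsCompact.of_isClosed_subset (isCompact_univ_pi fun _ : Fin n =>
      isCompact_Icc (a := (0 : ℝ)) (b := 1)) hcl ?_
    intro z hz i _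
    refine ⟨hz.1 i, ?_⟩
    exact (Finset.single_le_sum (fun j _ => hz.1 j) (Finset.mem_univ i)).trans hz.2
  · have ho : IsOpen ((⋂ i, {z : Fin n → ℝ | 0 < z i}) ∩ {z | ∑ i, z i < 1}) :=
      (isOpen_iInter_of_finite fun i => isOpen_lt continuous_const (by fun_prop)).inter
        (isOpen_lt (by fun_prop) continuous_const)
    refine ⟨fun _ => 1 / ((n : ℝ) + 1), ?_⟩
    rw [mem_interior]
    refine ⟨_, ?_, ho, ?_⟩
    · rintro z ⟨h1, h2⟩
      rw [mem_iInter] at h1
      exact ⟨fun i => (h1 i).le, le_of_lt h2⟩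
    · refine ⟨?_, ?_⟩
      · rw [mem_iInter]
        intro i
        simp only [mem_ofPred_eq]
        positivity
      · simp only [mem_ofPred_eq, Finset.sum_const, Finset.card_univ, Fintype.card_fin,
          nsmul_eq_mul]
        rw [mul_one_div, div_lt_one (by positivity)]
        linarith

lemma infp_eq {n : ℕ} {p : ℝ} (hp : 0 < p) :
    simplexInf n p = Pool.Agent.H131R5.LM.Mp p (Pool.Agent.H131R5.LM.Sn n) := by
  apply le_antisymm
  · have h2 := iInf₂_le (f := fun (x : Fin n → ℝ) (_ : x ∈ simplex n) =>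
      mahlerVolume p (translate (simplex n) x))
      _ (Pool.Agent.H131R5.LM.center_mem (n := n))
    rw [← Pool.Agent.H131R5.LM.image_Dn]
    exact h2
  · refine le_iInf₂ fun x _ => ?_
    have h := Pool.Agent.TH649.LOC.Mp_shift_le (n := n) hp (x - fun _ => 1 / ((n:ℝ) + 1))
    have e : (fun y : Fin n → ℝ => y - (x - fun _ => 1 / ((n:ℝ) + 1))) ''
        Pool.Agent.H131R5.LM.Sn n = translate (simplex n) x := by
      rw [← Pool.Agent.H131R5.LM.image_Dn, Set.image_image]
      refine Set.image_congr fun z _ => ?_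
      abel
    rw [e] at h
    exact h

lemma LK_simplex (n : ℕ) : isotropicConstant (simplex n) =
    Pool.Agent.N563.SE.LK (Pool.Agent.H131R5.LM.Sn n) := by
  have h := Pool.Agent.N563.SE.LK_sh (body_iff (body_simplex n)) (fun _ => 1 / ((n:ℝ) + 1))
  rw [← Pool.Agent.H131R5.LM.image_Dn]
  exact h.symm

lemma good_iff {n : ℕ} {p : ℝ} (hp : 0 < p) : Good n p ↔ Pool.Agent.N563.UL.Good n p := by
  constructor
  · intro h K hK
    have h1 := h K (iff_body hK)
    rw [infp_eq hp] at h1
    refine ⟨h1.1, fun he => ?_⟩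
    obtain ⟨v, _, _, hv⟩ := h1.2.1 he
    classical
    refine ⟨Finset.univ.image v, Finset.card_image_le.trans (by simp), ?_⟩
    rw [Finset.coe_image, Finset.coe_univ, Set.image_univ]
    exact hv
  · intro h K hK
    have h1 := h K (body_iff hK)
    rw [infp_eq hp]
    exact ⟨h1.1, fun he => Pool.Agent.N563.UL.hull_centred hp (body_iff hK) (h1.2 he) he,
      fun hc => Pool.Agent.N563.UL.centred_eq hp hc⟩

lemma stable_iff {n : ℕ} {c p : ℝ} (hp : 0 < p) :
    Stable n c p ↔ Pool.Agent.N563.UL.Stab n c p := by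
  unfold Stable
  rw [infp_eq hp]
  exact ⟨fun h K hK => h K (iff_body hK), fun h K hK => h K (body_iff hK)⟩

/-- small exponents, with explicit constants -/
theorem small (n : ℕ) (hn : 1 ≤ n) :
    (∀ p : ℝ, 0 < p → ∀ K : Set (Fin n → ℝ), Body K →
      ENNReal.ofReal ((Real.sqrt (2 * Real.pi / p) /
        (Real.sqrt (1 + p * (n + 2)) * isotropicConstant K)) ^ n) ≤ mahlerVolume p K ∧
      (p * (n : ℝ) ^ 2 ≤ n + 2 →
        mahlerVolume p (translate K (centroid K)) ≤ ENNReal.ofReal ((Real.sqrt (2 * Real.pi / p) *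
          Real.exp (5 / 8 * Real.sqrt (p * (n + 2))) / isotropicConstant K) ^ n) ∧
        (loss n p * isotropicConstant K < isotropicConstant (simplex n) →
          simplexInf n p < mahlerVolume p K) ∧
        ((∀ z, simplexInf n p ≤ mahlerVolume p (translate K z)) →
          isotropicConstant K ≤ loss n p * isotropicConstant (simplex n)))) ∧
    (∀ K : Set (Fin n → ℝ), Body K →
      Tendsto (fun p : ℝ => ENNReal.ofReal (Real.sqrt (p / (2 * Real.pi)) ^ n) *
        ⨅ z, mahlerVolume p (translate K z)) (𝓝[>] 0)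
        (𝓝 (ENNReal.ofReal (1 / isotropicConstant K ^ n)))) ∧
    (∀ c : ℝ, 0 < c →
      ((∀ K : Set (Fin n → ℝ), Body K → c * isotropicConstant K ≤ isotropicConstant (simplex n)) ↔
        ∀ ε : ℝ, 0 < ε → ε < 1 → ∃ p₀ : ℝ, 0 < p₀ ∧ ∀ p : ℝ, 0 < p → p < p₀ →
          ∀ K : Set (Fin n → ℝ), Body K →
            ENNReal.ofReal ((c * (1 - ε)) ^ n) * simplexInf n p ≤ mahlerVolume p K)) := by
  have hD := body_iff (body_simplex n)
  refine ⟨fun p hp K hK => ⟨?_, fun hpn => ⟨?_, ?_, ?_⟩⟩, fun K hK => ?_, fun c hc => ?_⟩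
  · exact Pool.Agent.N563.SE.lowL hn (body_iff hK) hp
  · exact Pool.Agent.N563.SE.upL hn (body_iff hK) hp hpn
  · exact Pool.Agent.N563.SE.part_lt hn hD (body_iff hK) hp hpn
  · intro h
    have h1 := Pool.Agent.N563.SE.part_conv hn hD (body_iff hK) hp hpn (c := 1) zero_le_one (by
      rw [one_pow, ENNReal.ofReal_one, one_mul]
      exact h (centroid K))
    rw [one_mul] at h1
    exact h1
  · exact Pool.Agent.N563.SE.part_lim hn (body_iff hK)
  · have h := Pool.Agent.N563.SE.part_eqv hn hD hc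
    constructor
    · intro h1 ε hε hε1
      obtain ⟨p₀, hp₀, h2⟩ := h.1 (fun K hK => h1 K (iff_body hK)) ε hε hε1
      exact ⟨p₀, hp₀, fun p hp hpp K hK => h2 p hp hpp K (body_iff hK)⟩
    · intro h1 K hK
      refine h.2 (fun ε hε hε1 => ?_) K (body_iff hK)
      obtain ⟨p₀, hp₀, h2⟩ := h1 ε hε hε1
      exact ⟨p₀, hp₀, fun p hp hpp K hK => h2 p hp hpp K (iff_body hK)⟩

/-- **The set of good exponents, and small exponents.**

For all `n ≥ 1`:
* for all `p > 0` and all convex bodies `K` in all positions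
  `M_p(K) ≥ (√(2π/p) / (√(1 + p(n+2)) L_K))^n`, and if `p n² ≤ n + 2`, then
  `M_p(K - c) ≤ (√(2π/p) e^(5/8 √(p(n+2))) / L_K)^n` at the centroid `c` of `K`; the inequality of
  Q1 holds for `K`, and is strict, if `√(1 + p(n+2)) e^(5/8 √(p(n+2))) L_K < L_Δ`, and if it holds
  for all translates of `K` then `L_K ≤ √(1 + p(n+2)) e^(5/8 √(p(n+2))) L_Δ`;
* `(p/2π)^(n/2) inf_z M_p(K - z) → L_K^(-n)` as `p → 0`;
* for `c > 0`: `c L_K ≤ L_Δ` for all `K` if and only if for each `ε ∈ (0,1)` there is `p₀ > 0` with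
  `(c(1-ε))^n inf_x M_p(Δ_n - x) ≤ M_p(K)` for all `0 < p < p₀` and all `K`.

For all `n ≥ 2`:
* there is `δ > 0` such that for all `p ∈ (0,∞)` the inequality of Q1 holds, with equality exactly
  for the simplices with centroid at the origin, for all bodies of deviation at most `δ`; for every
  `P` there are `δ', c > 0` with `(1 + c dev K) inf_x M_p(Δ_n - x) ≤ M_p(K)` for all `p ∈ (0,P]` and
  all bodies of deviation at most `δ'`;
* large exponents are good; around every good exponent there is an interval of good exponents, on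
  which linear stability holds for all bodies, with one constant; the inequality of Q1 passes to
  limits of exponents;
* the critical exponent: there is `s ≥ 0` such that all `p > s` are good, and if `s > 0`, then Q1
  holds at `s`, and it is an equality for a body of deviation larger than `δ`;
* linear stability for all small `p`, with one constant, is equivalent to `L_K ≤ L_Δ` for all `K`,
  with equality only for simplices. -/
theorem result :
    (∀ n : ℕ, 1 ≤ n →
      (∀ p : ℝ, 0 < p → ∀ K : Set (Fin n → ℝ), Body K →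
        ENNReal.ofReal ((Real.sqrt (2 * Real.pi / p) /
          (Real.sqrt (1 + p * (n + 2)) * isotropicConstant K)) ^ n) ≤ mahlerVolume p K ∧
        (p * (n : ℝ) ^ 2 ≤ n + 2 →
          mahlerVolume p (translate K (centroid K)) ≤
            ENNReal.ofReal ((Real.sqrt (2 * Real.pi / p) *
              Real.exp (5 / 8 * Real.sqrt (p * (n + 2))) / isotropicConstant K) ^ n) ∧
          (loss n p * isotropicConstant K < isotropicConstant (simplex n) →
            simplexInf n p < mahlerVolume p K) ∧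
          ((∀ z, simplexInf n p ≤ mahlerVolume p (translate K z)) →
            isotropicConstant K ≤ loss n p * isotropicConstant (simplex n)))) ∧
      (∀ K : Set (Fin n → ℝ), Body K →
        Tendsto (fun p : ℝ => ENNReal.ofReal (Real.sqrt (p / (2 * Real.pi)) ^ n) *
          ⨅ z, mahlerVolume p (translate K z)) (𝓝[>] 0)
          (𝓝 (ENNReal.ofReal (1 / isotropicConstant K ^ n)))) ∧
      (∀ c : ℝ, 0 < c →
        ((∀ K : Set (Fin n → ℝ), Body K →
          c * isotropicConstant K ≤ isotropicConstant (simplex n)) ↔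
          ∀ ε : ℝ, 0 < ε → ε < 1 → ∃ p₀ : ℝ, 0 < p₀ ∧ ∀ p : ℝ, 0 < p → p < p₀ →
            ∀ K : Set (Fin n → ℝ), Body K →
              ENNReal.ofReal ((c * (1 - ε)) ^ n) * simplexInf n p ≤ mahlerVolume p K)) ∧
      -- the deviation
      (∀ K : Set (Fin n → ℝ), Body K → 0 ≤ deviation K ∧ deviation K < 1 ∧
        (deviation K = 0 ↔ ∃ Q : Finset (Fin n → ℝ), Q.card ≤ n + 1 ∧
          K = convexHull ℝ (Q : Set (Fin n → ℝ))))) ∧
    (∀ n : ℕ, 2 ≤ n →
      -- uniform local minimality, and the critical exponent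
      (∃ δ : ℝ, 0 < δ ∧
        (∀ p : ℝ, 0 < p → ∀ K : Set (Fin n → ℝ), Body K → deviation K ≤ δ →
          simplexInf n p ≤ mahlerVolume p K ∧
          (mahlerVolume p K = simplexInf n p ↔ CentredSimplex K)) ∧
        ∃ s : ℝ, 0 ≤ s ∧ (∀ p : ℝ, s < p → Good n p) ∧
          (0 < s → Holds n s ∧ ∃ K : Set (Fin n → ℝ), Body K ∧
            mahlerVolume s K = simplexInf n s ∧ δ < deviation K)) ∧
      -- local stability, uniformly in `p ∈ (0, P]`
      (∀ P : ℝ, 0 < P → ∃ δ c : ℝ, 0 < δ ∧ 0 < c ∧ ∀ p : ℝ, 0 < p → p ≤ P →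
        ∀ K : Set (Fin n → ℝ), Body K → deviation K ≤ δ →
          ENNReal.ofReal (1 + c * deviation K) * simplexInf n p ≤ mahlerVolume p K) ∧
      -- good exponents
      (∃ p₀ : ℝ, 0 < p₀ ∧ ∀ p : ℝ, p₀ ≤ p → Good n p) ∧
      (∀ p : ℝ, 0 < p → Good n p → ∃ ε c : ℝ, 0 < ε ∧ 0 < c ∧
        ∀ q : ℝ, 0 < q → |q - p| < ε → Good n q ∧ Stable n c q) ∧
      (∀ p : ℝ, 0 < p → (∀ ε : ℝ, 0 < ε → ∃ q : ℝ, 0 < q ∧ |q - p| < ε ∧ Holds n q) →
        Holds n p) ∧
      -- small exponents
      ((∀ K : Set (Fin n → ℝ), Body K → isotropicConstant K ≤ isotropicConstant (simplex n) ∧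
          (isotropicConstant K = isotropicConstant (simplex n) → deviation K = 0)) ↔
        ∃ p₁ c : ℝ, 0 < p₁ ∧ 0 < c ∧ ∀ p : ℝ, 0 < p → p < p₁ → Stable n c p)) := by
  refine ⟨fun n hn => ?_, fun n hn => ?_⟩
  · obtain ⟨h1, h2, h3⟩ := small n hn
    refine ⟨h1, h2, h3, fun K hK => ?_⟩
    have hB := body_iff hK
    exact ⟨Pool.Agent.N563.UL.dev_nonneg hB, Pool.Agent.N563.UL.dev_lt_one hB,
      Pool.Agent.N563.UL.dev_zero hB⟩
  · obtain ⟨m, rfl⟩ : ∃ m, n = m + 2 := ⟨n - 2, by omega⟩
    refine ⟨?_, ?_, ?_, ?_, ?_, ?_⟩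
    · obtain ⟨δ, hδ, hloc, s, hs, hgt, hcr⟩ := Pool.Agent.N563.UL.critical' m
      refine ⟨δ, hδ, fun p hp K hK hd => ?_, s, hs, fun p hp => ?_, fun h => ?_⟩
      · have h1 := hloc p hp K (body_iff hK) hd
        rw [infp_eq hp]
        exact ⟨h1.1, fun he => Pool.Agent.N563.UL.hull_centred hp (body_iff hK) (h1.2 he) he,
          fun hc => Pool.Agent.N563.UL.centred_eq hp hc⟩
      · exact (good_iff (hs.trans_lt hp)).2 (hgt p hp)
      · obtain ⟨hW, K, hK, he, hd⟩ := hcr h
        refine ⟨fun K hK => ?_, K, iff_body hK, ?_, hd⟩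
        · rw [infp_eq h]
          exact hW K (body_iff hK)
        · rw [infp_eq h]
          exact he
    · intro P hP
      obtain ⟨δ, c, hδ, hc, h⟩ := Pool.Agent.N563.UL.stab_near m hP
      refine ⟨δ / (1 + δ), c, by positivity, hc, fun p hp hpP K hK hd => ?_⟩
      rw [infp_eq hp]
      exact (h K (body_iff hK) (Pool.Agent.N563.UL.near_of_dev (body_iff hK) hδ hd)).1 p hp hpP
    · obtain ⟨p0, hp0, h⟩ := Pool.Agent.N563.UL.good_large (n := m + 2) (by omega)
      exact ⟨p0, hp0, fun p hp => (good_iff (hp0.trans_le hp)).2 (h p hp)⟩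
    · intro p hp hg
      obtain ⟨ε, c, hε, hc, h⟩ := Pool.Agent.N563.UL.stab_good m hp ((good_iff hp).1 hg)
      exact ⟨ε, c, hε, hc, fun q hq hqp => ⟨(good_iff hq).2 ((h q hq hqp).good hc hq),
        (stable_iff hq).2 (h q hq hqp)⟩⟩
    · intro p hp h K hK
      rw [infp_eq hp]
      refine Pool.Agent.N563.UL.weak_closed hp (fun ε hε => ?_) K (body_iff hK)
      obtain ⟨q, hq, hqp, hH⟩ := h ε hε
      refine ⟨q, hq, hqp, fun K hK => ?_⟩
      have := hH K (iff_body hK)
      rwa [infp_eq hq] at this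
    · rw [LK_simplex]
      constructor
      · intro h
        obtain ⟨p1, c, hp1, hc, h1⟩ := (Pool.Agent.N563.UL.slice_iff m).1 (fun K hK =>
          ⟨(h K (iff_body hK)).1, fun he =>
            (Pool.Agent.N563.UL.dev_zero hK).1 ((h K (iff_body hK)).2 he)⟩)
        exact ⟨p1, c, hp1, hc, fun p hp hpp => (stable_iff hp).2 (h1 p hp hpp)⟩
      · rintro ⟨p1, c, hp1, hc, h1⟩ K hK
        have h2 := (Pool.Agent.N563.UL.slice_iff m).2
          ⟨p1, c, hp1, hc, fun p hp hpp => (stable_iff hp).1 (h1 p hp hpp)⟩ K (body_iff hK)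
        exact ⟨h2.1, fun he => (Pool.Agent.N563.UL.dev_zero (body_iff hK)).2 (h2.2 he)⟩

end Pool.Agent.Results.MP_5f4cdd_gt.SmallExponents
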