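import Pool.Agent.N632.SU.J28

/-!
# Joins and the non-symmetric `L^p`-Mahler conjecture

For bodies `A ⊂ ℝ^a`, `B ⊂ ℝ^b` let `A ⋆ B ⊂ ℝ^(a+b+1)` be their join (the hull of copies of `A`
and `B` in skew subspaces; `Δ_a ⋆ Δ_b = Δ_(a+b+1)`), and `I_p(K) = inf_z M_p(K - z)`.

There is an explicit functional `R_p` (an integral over the dual of the cone over the body, with the
Laplace transform of the cone to the power `-1/p`), which is multiplicative under joins, such that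
`I_p(A ⋆ B) / I_p(A) → R_p(B)` as `dim A → ∞`, uniformly over all bodies `A`, with a sharp lower
bound in every dimension.  For `p < ∞` the functional `I_p` itself is not multiplicative.  Hence
(join powers) the inequality of Q1 up to a factor `(1-ε)^n` in high dimensions, the same up to a
factor `C n^C` in all dimensions, the conic inequality `R_p(K) ≥ r(p)^(n+1)` for each single body,
and the limit of Q1 for the joins `Δ_a ⋆ K`, `a → ∞`, are equivalent, and the best exponential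
constant exists and is attained up to a polynomial factor.

The conic inequality is proved, for every `p`, for all planar bodies, all polytopes with at most
`n + 2` vertices and the class which they generate under free sums, joins, affine bijections and
movements of the chords; it is strict for polygons other than triangles, for symmetric bodies
(`p ≥ 2` and high dimension, or `p ≥ p₀` and all dimensions `n ≥ 2`), and for all bodies of
deviation `≥ δ` from the simplices and `p ≥ p₀(n, δ)`.  When it is strict for `B`, the inequality of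
Q1 for any body `A` of dimension `≥ a₀` implies the inequality with a factor `θ > 1` for `A ⋆ B`.
-/

set_option autoImplicit false

noncomputable section

open MeasureTheory Module Set Filter
open scoped ENNReal Topology

namespace Pool.Agent.Results.MP_5f4cdd_gt.StableMahler

/-! ### the problem -/

/-- convex bodies in `ℝⁿ` (in any position) -/
def Body {n : ℕ} (K : Set (Fin n → ℝ)) : Prop := Convex ℝ K ∧ IsCompact K ∧ (interior K).Nonempty

/-- The `L^p`-Mahler volume `M_p(K) = vol(K) ∫ exp(-h_{p,K}(y)) dy` for `0 < p < ∞`, where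
`exp(-h_{p,K}(y)) = ((1/vol K) ∫_K exp(p⟨x,y⟩) dx)^(-1/p)`. -/
def mahlerVolume {n : ℕ} (p : ℝ) (K : Set (Fin n → ℝ)) : ℝ≥0∞ :=
  volume K * ∫⁻ y : Fin n → ℝ, ENNReal.ofReal
    (((∫ x in K, Real.exp (p * ∑ i, x i * y i)) / (volume K).toReal) ^ (-(1 / p)))

/-- The classical Mahler volume `M_∞(K) = vol(K) ∫ exp(-h_K(y)) dy` (the case `p = ∞`), where
`h_K(y) = sup_{x ∈ K} ⟨x, y⟩`. -/
def mahlerInf {n : ℕ} (K : Set (Fin n → ℝ)) : ℝ≥0∞ :=
  volume K * ∫⁻ y : Fin n → ℝ, ENNReal.ofReal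
    (Real.exp (-(sSup ((fun x : Fin n → ℝ => ∑ i, x i * y i) '' K))))

/-- the translate `K - z` -/
def shift {n : ℕ} (K : Set (Fin n → ℝ)) (z : Fin n → ℝ) : Set (Fin n → ℝ) := (fun x => x - z) '' K

/-- `I_p(K)`, the infimum of `M_p(K - z)` over all positions -/
def mahlerMin {n : ℕ} (p : ℝ) (K : Set (Fin n → ℝ)) : ℝ≥0∞ :=
  ⨅ z : Fin n → ℝ, mahlerVolume p (shift K z)

/-- the standard simplex `Δ_n` -/
def simplex (n : ℕ) : Set (Fin n → ℝ) := {z | (∀ i, 0 ≤ z i) ∧ ∑ i, z i ≤ 1}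

/-- the infimum of `M_p(Δ_n - x)` over `x ∈ Δ_n` -/
def simplexInf (n : ℕ) (p : ℝ) : ℝ≥0∞ :=
  ⨅ x ∈ simplex n, mahlerVolume p ((fun z : Fin n → ℝ => z - x) '' simplex n)

/-- the rate `r(p) = e^(1+1/p) p^(1/p) Γ(1+1/p)`, the limit of `simplexInf n p ^ (1/n)` -/
def rate (p : ℝ) : ℝ := Real.exp (1 + 1 / p) * p ^ (1 / p) * Real.Gamma (1 + 1 / p)

/-! ### joins and the conic functional -/

/-- the join `A ⋆ B = {((1-t) x, t y, t) : x ∈ A, y ∈ B, 0 ≤ t ≤ 1} ⊆ ℝ^(a+b+1)` -/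
def join {a b : ℕ} (A : Set (Fin a → ℝ)) (B : Set (Fin b → ℝ)) : Set (Fin (a + b + 1) → ℝ) :=
  {w | ∃ t ∈ Icc (0:ℝ) 1, ∃ x ∈ A, ∃ y ∈ B,
    w = Fin.append (Fin.append ((1 - t) • x) (t • y)) (fun _ : Fin 1 => t)}

/-- the Laplace transform of the cone over `K`,
`∫_0^∞ e^(-σt) ∫_(tK) e^⟨x,w⟩ dx dt = ∫_0^∞ e^(-σt) tⁿ ∫_K e^⟨x,tw⟩ dx dt` -/
def coneTransform {n : ℕ} (K : Set (Fin n → ℝ)) (w : Fin n → ℝ) (σ : ℝ) : ℝ≥0∞ :=
  ∫⁻ t in Ioi (0:ℝ), ENNReal.ofReal (Real.exp (-(σ * t))) * (ENNReal.ofReal (t ^ n) *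
    ∫⁻ x in K, ENNReal.ofReal (Real.exp (∑ i, x i * (t * w i))))

/-- the conic functional in the position `z`:
`(e^(1+1/p) p^(1/p))^(n+1) (n+1)^(-(n+1)(1+1/p)) (n! vol K)^(1+1/p) ∫∫ e^(⟨z,w⟩-σ) Ψ(w,σ)^(-1/p) dσ dw`
with the transform `Ψ` of the cone over `K` -/
def conicAt {n : ℕ} (p : ℝ) (K : Set (Fin n → ℝ)) (z : Fin n → ℝ) : ℝ≥0∞ :=
  ENNReal.ofReal ((Real.exp (1 + 1 / p) * p ^ (1 / p)) ^ (n + 1) *
    ((n:ℝ) + 1) ^ (-(((n:ℝ) + 1) * (1 + 1 / p)))) * ((n.factorial * volume K) ^ (1 + 1 / p) *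
      ∫⁻ w : Fin n → ℝ, ∫⁻ σ : ℝ, ENNReal.ofReal (Real.exp (∑ i, z i * w i - σ)) *
        (coneTransform K w σ) ^ (-(1 / p)))

/-- the conic functional `R_p(K)` -/
def conic {n : ℕ} (p : ℝ) (K : Set (Fin n → ℝ)) : ℝ≥0∞ := ⨅ z ∈ interior K, conicAt p K z

/-- the conic functional for `p = ∞`: `R_∞(K) = (e/(n+1))^(n+1) n! inf_z M_∞(K - z)` -/
def conicInf {n : ℕ} (K : Set (Fin n → ℝ)) : ℝ≥0∞ :=
  ⨅ z ∈ interior K, ENNReal.ofReal ((Real.exp 1 / ((n:ℝ) + 1)) ^ (n + 1) * n.factorial) *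
    mahlerInf (shift K z)

/-- `c(p) = (1+1/p)^((1+1/p)/2) (p/2π)^(1/(2p))` -/
def cst (p : ℝ) : ℝ := (1 + 1 / p) ^ ((1 + 1 / p) / 2) * (p / (2 * Real.pi)) ^ (1 / (2 * p))

/-! ### the forms of the conjecture -/

/-- Q1 up to `κⁿ`, asymptotically -/
def AsymptoticQ (p κ : ℝ) : Prop := ∀ θ : ℝ, 0 < θ → θ < κ → ∃ n₀ : ℕ, ∀ n : ℕ, n₀ ≤ n →
  ∀ K : Set (Fin n → ℝ), Body K → ENNReal.ofReal (θ ^ n) * simplexInf n p ≤ mahlerMin p K

/-- Q1 up to `κⁿ` and a factor `C n^C` -/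
def PolynomialQ (p κ : ℝ) : Prop := ∃ C : ℝ, 0 < C ∧ ∀ (n : ℕ) (K : Set (Fin n → ℝ)), 1 ≤ n →
  Body K → ENNReal.ofReal (κ ^ n) * simplexInf n p ≤
    ENNReal.ofReal (C * (n:ℝ) ^ C) * mahlerMin p K

/-- the conic inequality up to `κ^(n+1)` -/
def ConicQ (p κ : ℝ) : Prop := ∀ (n : ℕ) (K : Set (Fin n → ℝ)), Body K →
  ENNReal.ofReal ((κ * rate p) ^ (n + 1)) ≤ conic p K

/-- Q1 in the limit for the joins with simplices -/
def StableQ (p : ℝ) : Prop := ∀ (n : ℕ) (K : Set (Fin n → ℝ)), Body K → ∀ θ : ℝ, 0 < θ → θ < 1 →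
  ∃ a₀ : ℕ, ∀ a : ℕ, a₀ ≤ a →
    ENNReal.ofReal θ * simplexInf (a + n + 1) p ≤ mahlerMin p (join (simplex a) K)

/-! ### classes of bodies -/

/-- the set `K_t = {x + t β(x) θ : x ∈ K}` -/
def move {n : ℕ} (θ : Fin n → ℝ) (β : (Fin n → ℝ) → ℝ) (t : ℝ) (K : Set (Fin n → ℝ)) :
    Set (Fin n → ℝ) := (fun x => x + (t * β x) • θ) '' K

/-- the velocities of the chords parallel to `θ`: continuous, and constant on the lines parallel
to `θ` -/
def IsVelocity {n : ℕ} (θ : Fin n → ℝ) (β : (Fin n → ℝ) → ℝ) : Prop :=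
  Continuous β ∧ ∀ (x : Fin n → ℝ) (s : ℝ), β (x + s • θ) = β x

/-- free sums of planar convex bodies and simplices: the hull of the union of convex bodies `A i`
which share the point `q`, lie in `q + V i` with `∑ dim V i ≤ n`, and are simplices if
`dim V i ≠ 2` -/
def IsFreeSum {n : ℕ} (K : Set (Fin n → ℝ)) : Prop :=
  ∃ (m : ℕ) (V : Fin m → Submodule ℝ (Fin n → ℝ)) (A : Fin m → Set (Fin n → ℝ)) (q : Fin n → ℝ),
    ∑ i, finrank ℝ (V i) ≤ n ∧
    (∀ i, IsCompact (A i) ∧ Convex ℝ (A i) ∧ q ∈ A i ∧ ∀ x ∈ A i, x - q ∈ V i) ∧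
    (∀ i, finrank ℝ (V i) = 2 ∨ ∃ S : Finset (Fin n → ℝ),
      S.card ≤ finrank ℝ (V i) + 1 ∧ A i = convexHull ℝ (S : Set (Fin n → ℝ))) ∧
    K = convexHull ℝ (⋃ i, A i) ∧ (interior K).Nonempty

/-- the smallest class of convex bodies which contains the planar bodies, the polytopes with at
most `n + 2` vertices and the free sums of planar bodies and simplices and is closed under joins,
affine bijections, and the passage from `K_(-c)` and `K_d` to the convex body `K = K_0` -/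
inductive Generated : (n : ℕ) → Set (Fin n → ℝ) → Prop
  | planar {K : Set (Fin 2 → ℝ)} (hK : Body K) : Generated 2 K
  | fewVertices {n : ℕ} (P : Finset (Fin n → ℝ)) (hP : P.card ≤ n + 2)
      (hi : (interior (convexHull ℝ (P : Set (Fin n → ℝ)))).Nonempty) :
      Generated n (convexHull ℝ (P : Set (Fin n → ℝ)))
  | freeSum {n : ℕ} {K : Set (Fin n → ℝ)} (hK : IsFreeSum K) : Generated n K
  | join {a b : ℕ} {A : Set (Fin a → ℝ)} {B : Set (Fin b → ℝ)} (hA : Generated a A)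
      (hB : Generated b B) : Generated (a + b + 1) (StableMahler.join A B)
  | affine {n : ℕ} {K : Set (Fin n → ℝ)} (hK : Generated n K)
      (T : (Fin n → ℝ) ≃ₗ[ℝ] (Fin n → ℝ)) (z : Fin n → ℝ) : Generated n (shift (T '' K) z)
  | between {n : ℕ} {K : Set (Fin n → ℝ)} (hK : Body K) {θ : Fin n → ℝ}
      {β : (Fin n → ℝ) → ℝ} (hβ : IsVelocity θ β) {c d : ℝ} (hc : 0 < c) (hd : 0 < d)
      (h₁ : Generated n (move θ β (-c) K)) (h₂ : Generated n (move θ β d K)) : Generated n K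

/-- symmetric about some point -/
def IsSymmetric {n : ℕ} (K : Set (Fin n → ℝ)) : Prop :=
  ∃ z : Fin n → ℝ, ∀ x ∈ K, (2:ℝ) • z - x ∈ K

/-- every simplex which contains `K` has volume larger than `(1 + δ) vol K` -/
def FarFromSimplices {n : ℕ} (δ : ℝ) (K : Set (Fin n → ℝ)) : Prop :=
  ∀ Q : Finset (Fin n → ℝ), Q.card ≤ n + 1 → K ⊆ convexHull ℝ (Q : Set (Fin n → ℝ)) →
    ENNReal.ofReal (1 + δ) * volume K < volume (convexHull ℝ (Q : Set (Fin n → ℝ)))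

/-! ### translation to the library -/

open Pool.Agent.N632.SU in
lemma bb {n : ℕ} {K : Set (Fin n → ℝ)} (h : Body K) : BB K := ⟨h.2.1, h.1, h.2.2⟩

open Pool.Agent.N632.SU in
lemma body {n : ℕ} {K : Set (Fin n → ℝ)} (h : BB K) : Body K := ⟨h.conv, h.comp, h.int⟩

lemma min_eq {n : ℕ} {p : ℝ} (hp : 0 < p) {K : Set (Fin n → ℝ)} (hK : Body K) :
    mahlerMin p K = Pool.Agent.N632.SU.IM p K := (Pool.Agent.N632.SU.IM_eq hp (bb hK)).symm

lemma join_eq {a b : ℕ} (A : Set (Fin a → ℝ)) (B : Set (Fin b → ℝ)) :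
    join A B = Pool.Agent.N632.SU.jS A B := rfl

lemma conic_eq {n : ℕ} (p : ℝ) (K : Set (Fin n → ℝ)) :
    conic p K = Pool.Agent.N632.SU.RJ p K := by
  unfold conic Pool.Agent.N632.SU.RJ
  refine iInf_congr fun z => iInf_congr fun _ => ?_
  unfold conicAt Pool.Agent.N632.SU.RZ Pool.Agent.N632.SU.EZ
  have e : ∀ (w : Fin n → ℝ) (σ : ℝ),
      Real.exp (∑ i, z i * w i - σ) = Real.exp (z ⬝ᵥ w - 1 * σ) := by
    intro w σ
    rw [one_mul]
    rfl
  simp_rw [e]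
  rfl

lemma conicInf_eq {n : ℕ} {K : Set (Fin n → ℝ)} (hK : Body K) :
    conicInf K = Pool.Agent.N632.SU.RI K := by
  unfold conicInf Pool.Agent.N632.SU.RI
  refine iInf_congr fun z => iInf_congr fun _ => ?_
  have h : mahlerInf (shift K z) = Pool.Agent.W570.AV.mah (Pool.Agent.N632.SU.sh K z) := rfl
  rw [h, Pool.Agent.N632.SU.mah_sh hK.2.1 (hK.2.2.mono interior_subset)]
  unfold Pool.Agent.N632.SU.RZI
  rw [ENNReal.ofReal_mul (by positivity), ENNReal.ofReal_natCast, Pool.Agent.N632.SU.cI_eq,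
    div_pow]
  ring

lemma rate_eq (p : ℝ) : rate p = Pool.Agent.N632.SU.rr p := rfl

lemma ofReal_rate {p : ℝ} (hp : 0 < p) (n : ℕ) :
    ENNReal.ofReal (rate p ^ n) = ENNReal.ofReal (Pool.Agent.N632.SU.rr p) ^ n :=
  ENNReal.ofReal_pow (Pool.Agent.N632.SU.rr_pos hp).le n

lemma gn {n : ℕ} {K : Set (Fin n → ℝ)} (h : Generated n K) : Pool.Agent.N632.SU.Gn n K := by
  induction h with
  | planar hK => exact .fs (Pool.Agent.N632.SU.FS_planar (bb hK))
  | fewVertices P hP hi => exact .fs (Pool.Agent.N632.SU.FS_few P hP hi)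
  | freeSum hK => exact .fs hK
  | join hA hB ihA ihB => exact .join ihA ihB
  | affine hK T z ih => exact .aff ih T z
  | between hK hβ hc hd h₁ h₂ ih₁ ih₂ => exact .between (bb hK) hβ hc hd ih₁ ih₂

lemma asy_iff {p : ℝ} (hp : 0 < p) (κ : ℝ) :
    AsymptoticQ p κ ↔ Pool.Agent.N632.SU.ExpQ p κ := by
  constructor
  · intro h θ h0 h1
    obtain ⟨n₀, hn⟩ := h θ h0 h1
    exact ⟨n₀, fun n hnn K hK => by rw [← min_eq hp (body hK)]; exact hn n hnn K (body hK)⟩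
  · intro h θ h0 h1
    obtain ⟨n₀, hn⟩ := h θ h0 h1
    exact ⟨n₀, fun n hnn K hK => by rw [min_eq hp hK]; exact hn n hnn K (bb hK)⟩

lemma pol_iff {p : ℝ} (hp : 0 < p) (κ : ℝ) :
    PolynomialQ p κ ↔ Pool.Agent.N632.SU.PolQ p κ := by
  constructor
  · rintro ⟨C, hC, h⟩
    exact ⟨C, hC, fun n K hn hK => by rw [← min_eq hp (body hK)]; exact h n K hn (body hK)⟩
  · rintro ⟨C, hC, h⟩
    exact ⟨C, hC, fun n K hn hK => by rw [min_eq hp hK]; exact h n K hn (bb hK)⟩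

lemma con_iff (p κ : ℝ) : ConicQ p κ ↔ Pool.Agent.N632.SU.ConQ p κ := by
  constructor
  · intro h n K hK
    rw [← conic_eq]
    exact h n K (body hK)
  · intro h n K hK
    rw [conic_eq]
    exact h n K (bb hK)

lemma join_body {a b : ℕ} {A : Set (Fin a → ℝ)} {B : Set (Fin b → ℝ)} (hA : Body A)
    (hB : Body B) : Body (join A B) := body (Pool.Agent.N632.SU.bb_jS (bb hA) (bb hB))

lemma simplex_body (n : ℕ) : Body (simplex n) := body (Pool.Agent.N632.SU.bb_Dn n)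

lemma stable_iff {p : ℝ} (hp : 0 < p) : StableQ p ↔ Pool.Agent.N632.SU.StQ p := by
  constructor
  · intro h n K hK θ h0 h1
    obtain ⟨a₀, ha⟩ := h n K (body hK) θ h0 h1
    refine ⟨a₀, fun a haa => ?_⟩
    have := ha a haa
    rwa [min_eq hp (join_body (simplex_body a) (body hK))] at this
  · intro h n K hK θ h0 h1
    obtain ⟨a₀, ha⟩ := h n K (bb hK) θ h0 h1
    refine ⟨a₀, fun a haa => ?_⟩
    rw [min_eq hp (join_body (simplex_body a) hK)]
    exact ha a haa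

open Pool.Agent.N632.SU in
/-- Q1 passes to joins -/
lemma pass {p : ℝ} (hp : 0 < p) {b : ℕ} {B : Set (Fin b → ℝ)} (hB : Body B) {θ : ℝ}
    (h : ∃ a₀ : ℕ, ∀ a : ℕ, a₀ ≤ a → ∀ A : Set (Fin a → ℝ), BB A →
      Pool.Agent.H131R5.LC.II a p ≤ IM p A →
      ENNReal.ofReal θ * Pool.Agent.H131R5.LC.II (a + b + 1) p ≤ IM p (jS A B)) :
    ∃ a₀ : ℕ, ∀ a : ℕ, a₀ ≤ a → ∀ A : Set (Fin a → ℝ), Body A →
      simplexInf a p ≤ mahlerMin p A →
      ENNReal.ofReal θ * simplexInf (a + b + 1) p ≤ mahlerMin p (join A B) := by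
  obtain ⟨a₀, h⟩ := h
  refine ⟨a₀, fun a ha A hA hQ => ?_⟩
  rw [min_eq hp hA] at hQ
  rw [min_eq hp (join_body hA hB)]
  exact h a ha A (bb hA) hQ

/-- **Joins and the non-symmetric `L^p`-Mahler conjecture** -/
theorem result :
    (∀ p : ℝ, 0 < p →
      -- (1) the join inequality
      (∀ (a b : ℕ) (A : Set (Fin a → ℝ)) (B : Set (Fin b → ℝ)), 1 ≤ a → Body A → Body B →
        ENNReal.ofReal (((a.factorial : ℝ) / (a + b + 1).factorial * (a:ℝ) ^ (b + 1)) ^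
          (1 + 1 / p)) * (mahlerMin p A * conic p B) ≤ mahlerMin p (join A B)) ∧
      -- (2) its asymptotic sharpness, uniformly over all bodies `A`
      (∀ (b : ℕ) (B : Set (Fin b → ℝ)), Body B → 0 < conic p B ∧ conic p B < ⊤ ∧
        ∀ ε : ℝ, 0 < ε → ε < 1 → ∃ a₀ : ℕ, ∀ a : ℕ, a₀ ≤ a → ∀ A : Set (Fin a → ℝ), Body A →
          ENNReal.ofReal (1 - ε) * (conic p B * mahlerMin p A) ≤ mahlerMin p (join A B) ∧
          mahlerMin p (join A B) ≤ ENNReal.ofReal (1 + ε) * (conic p B * mahlerMin p A)) ∧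
      -- (3) the conic functional is multiplicative; simplices; affine invariance
      (∀ (a b : ℕ) (A : Set (Fin a → ℝ)) (B : Set (Fin b → ℝ)), Body A → Body B →
        conic p (join A B) = conic p A * conic p B) ∧
      (∀ n : ℕ, conic p (simplex n) = ENNReal.ofReal (rate p ^ (n + 1))) ∧
      (∀ (n : ℕ) (K : Set (Fin n → ℝ)), Body K → ∀ (T : (Fin n → ℝ) ≃ₗ[ℝ] (Fin n → ℝ))
        (z : Fin n → ℝ), conic p (shift (T '' K) z) = conic p K) ∧
      -- (4) the quotient of the two sides of Q1 for the joins with simplices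
      (∀ (n : ℕ) (K : Set (Fin n → ℝ)), Body K →
        Tendsto (fun a : ℕ => mahlerMin p (join (simplex a) K) / simplexInf (a + n + 1) p) atTop
          (𝓝 (conic p K / ENNReal.ofReal (rate p ^ (n + 1))))) ∧
      -- (5) comparison with `I_p` and with the case `p = ∞`
      (∃ D : ℝ, 0 < D ∧ ∀ (n : ℕ) (K : Set (Fin n → ℝ)), 1 ≤ n → Body K →
        mahlerMin p K ≤ ENNReal.ofReal (D * (n:ℝ) ^ D) * conic p K ∧
        conic p K ≤ ENNReal.ofReal (D * (n:ℝ) ^ D) * mahlerMin p K) ∧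
      (∀ (n : ℕ) (K : Set (Fin n → ℝ)), Body K →
        ENNReal.ofReal (cst p ^ (n + 1)) * conicInf K ^ (1 + 1 / (2 * p)) ≤ conic p K) ∧
      -- (6) the equivalences
      (∀ κ : ℝ, 0 < κ → (AsymptoticQ p κ ↔ ConicQ p κ) ∧ (PolynomialQ p κ ↔ ConicQ p κ)) ∧
      (StableQ p ↔ ConicQ p 1) ∧
      -- (7) the best exponential constant
      (∃ κ : ℝ, 0 < κ ∧ cst p * Real.exp 1 ^ (1 + 1 / (2 * p)) / rate p ≤ κ ∧ κ ≤ 1 ∧
        PolynomialQ p κ ∧ ConicQ p κ ∧ ∀ θ : ℝ, κ < θ → ∃ n₀ : ℕ, ∀ n : ℕ, n₀ ≤ n →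
          ∃ K : Set (Fin n → ℝ), Body K ∧
            mahlerMin p K ≤ ENNReal.ofReal (θ ^ n) * simplexInf n p) ∧
      -- (8) movements of the chords
      (∀ (n : ℕ) (K : Set (Fin n → ℝ)), Body K → ∀ (θ : Fin n → ℝ) (β : (Fin n → ℝ) → ℝ),
        IsVelocity θ β → ∀ c d : ℝ, 0 < c → 0 < d → Body (move θ β (-c) K) →
        Body (move θ β d K) → (conic p K)⁻¹ ≤
          ENNReal.ofReal (d / (c + d)) * (conic p (move θ β (-c) K))⁻¹ +
          ENNReal.ofReal (c / (c + d)) * (conic p (move θ β d K))⁻¹) ∧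
      -- (9) the conic inequality for the generated class, and what follows for `I_p`
      (∀ (n : ℕ) (K : Set (Fin n → ℝ)), Generated n K →
        Body K ∧ ENNReal.ofReal (rate p ^ (n + 1)) ≤ conic p K) ∧
      (∃ C : ℝ, 0 < C ∧ ∀ (n : ℕ) (K : Set (Fin n → ℝ)), 1 ≤ n → Generated n K →
        simplexInf n p ≤ ENNReal.ofReal (C * (n:ℝ) ^ C) * mahlerMin p K) ∧
      (∀ (n : ℕ) (K : Set (Fin n → ℝ)), Generated n K → ∀ θ : ℝ, 0 < θ → θ < 1 →
        ∃ a₀ : ℕ, ∀ a : ℕ, a₀ ≤ a → ∀ A : Set (Fin a → ℝ), Body A →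
          simplexInf a p ≤ mahlerMin p A →
          ENNReal.ofReal θ * simplexInf (a + n + 1) p ≤ mahlerMin p (join A K)) ∧
      -- (10) a strict conic inequality gives the inequality of Q1 with a factor `θ > 1`
      (∀ (b : ℕ) (B : Set (Fin b → ℝ)), Body B →
        ENNReal.ofReal (rate p ^ (b + 1)) < conic p B → ∃ θ : ℝ, 1 < θ ∧
        ∃ a₀ : ℕ, ∀ a : ℕ, a₀ ≤ a → ∀ A : Set (Fin a → ℝ), Body A →
          simplexInf a p ≤ mahlerMin p A →
          ENNReal.ofReal θ * simplexInf (a + b + 1) p ≤ mahlerMin p (join A B)) ∧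
      -- (11) it is strict for polygons other than triangles, and for symmetric bodies
      (∀ S : Finset (Fin 2 → ℝ), (interior (convexHull ℝ (S : Set (Fin 2 → ℝ)))).Nonempty →
        (∀ T : Finset (Fin 2 → ℝ), T.card ≤ 3 →
          convexHull ℝ (S : Set (Fin 2 → ℝ)) ≠ convexHull ℝ (T : Set (Fin 2 → ℝ))) →
        ENNReal.ofReal (rate p ^ 3) < conic p (convexHull ℝ (S : Set (Fin 2 → ℝ)))) ∧
      (2 ≤ p → ∃ n₀ : ℕ, ∀ n : ℕ, n₀ ≤ n → ∀ K : Set (Fin n → ℝ), Body K → IsSymmetric K →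
        ENNReal.ofReal (rate p ^ (n + 1)) < conic p K)) ∧
    -- symmetric bodies of all dimensions `n ≥ 2` and all `p ≥ p₀`
    (∃ p₀ : ℝ, 0 < p₀ ∧ ∀ p : ℝ, p₀ ≤ p → ∀ n : ℕ, 2 ≤ n → ∀ K : Set (Fin n → ℝ), Body K →
      IsSymmetric K → ENNReal.ofReal (rate p ^ (n + 1)) < conic p K) ∧
    -- all bodies of deviation at least `δ` from the simplices and all `p ≥ p₀(n, δ)`
    (∀ n : ℕ, 1 ≤ n → ∀ δ : ℝ, 0 < δ → ∃ p₀ : ℝ, 0 < p₀ ∧ ∀ p : ℝ, p₀ ≤ p →
      ∀ K : Set (Fin n → ℝ), Body K → FarFromSimplices δ K →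
        ENNReal.ofReal (rate p ^ (n + 1)) < conic p K) := by
  refine ⟨fun p hp => ⟨?_, ?_, ?_, ?_, ?_, ?_, ?_, ?_, ?_, ?_, ?_, ?_, ?_, ?_, ?_, ?_, ?_, ?_⟩,
    ?_, ?_⟩
  · intro a b A B ha hA hB
    rw [min_eq hp hA, min_eq hp (join_body hA hB), conic_eq]
    exact Pool.Agent.N632.SU.IM_join_ge hp (bb hA) (bb hB) ha
  · intro b B hB
    rw [conic_eq]
    refine ⟨pos_iff_ne_zero.2 (Pool.Agent.N632.SU.RJ_ne_zero (bb hB) hp),
      lt_top_iff_ne_top.2 (Pool.Agent.N632.SU.RJ_ne_top (bb hB) hp), fun ε h0 h1 => ?_⟩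
    obtain ⟨a₀, h⟩ := Pool.Agent.N632.SU.uniform_limit hp (bb hB) h0 h1
    refine ⟨a₀, fun a ha A hA => ?_⟩
    rw [min_eq hp hA, min_eq hp (join_body hA hB)]
    exact h a ha A (bb hA)
  · intro a b A B hA hB
    rw [conic_eq, conic_eq, conic_eq]
    exact Pool.Agent.N632.SU.RJ_jS hp (bb hA) (bb hB)
  · intro n
    rw [conic_eq, ofReal_rate hp]
    exact Pool.Agent.N632.SU.RJ_Dn hp n
  · intro n K hK T z
    rw [conic_eq, conic_eq]
    exact Pool.Agent.N632.SU.RJ_aff hp (bb hK) T z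
  · intro n K hK
    rw [conic_eq, ofReal_rate hp]
    refine (Pool.Agent.N632.SU.quot_Dn hp (bb hK)).congr fun a => ?_
    rw [min_eq hp (join_body (simplex_body a) hK)]
    rfl
  · obtain ⟨D, hD, h⟩ := Pool.Agent.N632.SU.polyJ hp
    refine ⟨D, hD, fun n K hn hK => ?_⟩
    rw [min_eq hp hK, conic_eq]
    exact h n K hn (bb hK)
  · intro n K hK
    rw [conic_eq, conicInf_eq hK]
    exact Pool.Agent.N632.SU.RJ_ge' hp (bb hK)
  · intro κ hκ
    rw [asy_iff hp, pol_iff hp, con_iff]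
    exact ⟨Pool.Agent.N632.SU.exp_iff_con hp hκ, (Pool.Agent.N632.SU.con_iff_pol hp hκ).symm⟩
  · rw [stable_iff hp, con_iff]
    exact Pool.Agent.N632.SU.st_iff_con hp
  · obtain ⟨κ, h0, h1, h2, h3, h4, h5⟩ := Pool.Agent.N632.SU.optimal hp
    refine ⟨κ, h0, h1, h2, (pol_iff hp κ).2 h4, (con_iff p κ).2 h3, fun θ hθ => ?_⟩
    obtain ⟨n₀, h⟩ := h5 θ hθ
    refine ⟨n₀, fun n hn => ?_⟩
    obtain ⟨L, hL, hLM⟩ := h n hn
    exact ⟨L, body hL, by rw [min_eq hp (body hL)]; exact hLM⟩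
  · intro n K hK θ β hβ c d hc hd h1 h2
    rw [conic_eq, conic_eq, conic_eq]
    exact Pool.Agent.N632.SU.RJ_move hp (bb hK) hβ hc hd h1.1 h2.1
  · intro n K hK
    obtain ⟨h1, h2⟩ := Pool.Agent.N632.SU.Gn_conic (gn hK) hp
    rw [conic_eq, ofReal_rate hp]
    exact ⟨body h1, h2⟩
  · obtain ⟨C, hC, h⟩ := Pool.Agent.N632.SU.pol_one hp one_pos
    refine ⟨C, hC, fun n K hn hK => ?_⟩
    obtain ⟨h1, h2⟩ := Pool.Agent.N632.SU.Gn_conic (gn hK) hp
    rw [min_eq hp (body h1)]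
    have h3 := h n K hn h1 (by
      rw [one_mul, ENNReal.ofReal_pow (Pool.Agent.N632.SU.rr_pos hp).le]; exact h2)
    rwa [one_pow, ENNReal.ofReal_one, one_mul] at h3
  · intro n K hK θ h0 h1
    obtain ⟨h2, h3⟩ := Pool.Agent.N632.SU.Gn_conic (gn hK) hp
    refine pass hp (body h2) (Pool.Agent.N632.SU.join_of hp h2 (lt_of_lt_of_le ?_ h3))
    exact Pool.Agent.N632.SU.lt_of_theta (pow_ne_zero _ (Pool.Agent.N632.SU.rrE_ne_zero hp))
      (ENNReal.pow_ne_top ENNReal.ofReal_ne_top) h0 h1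
  · intro b B hB h
    rw [conic_eq, ofReal_rate hp] at h
    obtain ⟨θ, hθ, h1⟩ := Pool.Agent.N632.SU.strict_join hp (bb hB) h
    exact ⟨θ, hθ, pass hp hB h1⟩
  · intro S hi hS
    rw [conic_eq, ofReal_rate hp]
    exact Pool.Agent.N632.SU.polygon_strict hp S.card S le_rfl hi hS
  · intro h2
    obtain ⟨n₀, h⟩ := Pool.Agent.N632.SU.sym_high h2
    refine ⟨n₀, fun n hn K hK hs => ?_⟩
    obtain ⟨z, hz⟩ := hs
    rw [conic_eq, ofReal_rate hp]
    exact h n hn K (bb hK) z hz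
  · obtain ⟨p₀, h0, h⟩ := Pool.Agent.N632.SU.sym_large
    refine ⟨p₀, h0, fun p hp n hn K hK hs => ?_⟩
    obtain ⟨z, hz⟩ := hs
    rw [conic_eq, ofReal_rate (h0.trans_le hp)]
    exact h p hp n hn K (bb hK) z hz
  · intro n hn δ hδ
    obtain ⟨p₀, h0, h⟩ := Pool.Agent.N632.SU.far_large hn hδ
    refine ⟨p₀, h0, fun p hp K hK hfar => ?_⟩
    rw [conic_eq, ofReal_rate (h0.trans_le hp)]
    exact h p hp K (bb hK) hfar

end Pool.Agent.Results.MP_5f4cdd_gt.StableMahler
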